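import Pool.Agent.H773.LK.Spec

/-! LK MODE (helper292 for helper773, MP_daec8e_mp). -/

set_option autoImplicit false

noncomputable section

namespace Pool.Agent.H292.LK

open Pool.Agent.H773.LK
open MeasureTheory Filter Topology Set
open scoped ENNReal NNReal ComplexConjugate InnerProductSpace

/-- norm bound by the sup norm -/
theorem kop_norm_le (hK : S_KOP) {L : ℝ} (hL : 0 < L) {k : ℝ → ℝ → ℂ}
    (hk : Continuous (Function.uncurry k)) {M : ℝ} (hM : 0 ≤ M) (hb : ∀ s t, ‖k s t‖ ≤ M) :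
    ‖kop L k‖ ≤ L * M := by
  have h1 := ((hK L hL).1 k hk).2.1
  have h2 : ∫ s in Ioc (0 : ℝ) L, ∫ t in Ioc (0 : ℝ) L, ‖k s t‖ ^ 2 ≤ (L * M) ^ 2 := by
    have hv : (volume : Measure ℝ).real (Ioc (0 : ℝ) L) = L := by
      simp [Measure.real, hL.le]
    have hfin : (volume : Measure ℝ) (Ioc (0 : ℝ) L) < ⊤ := by simp
    have h3 : ∀ s ∈ Ioc (0 : ℝ) L, ‖∫ t in Ioc (0 : ℝ) L, ‖k s t‖ ^ 2‖ ≤ M ^ 2 * L := by
      intro s _
      have := norm_setIntegral_le_of_norm_le_const (f := fun t => ‖k s t‖ ^ 2) (C := M ^ 2) hfin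
        (fun t _ => by
          rw [Real.norm_of_nonneg (by positivity)]
          exact pow_le_pow_left₀ (norm_nonneg _) (hb s t) 2)
      rwa [hv] at this
    have h4 := norm_setIntegral_le_of_norm_le_const
      (f := fun s => ∫ t in Ioc (0 : ℝ) L, ‖k s t‖ ^ 2) hfin h3
    rw [hv] at h4
    refine (le_abs_self _).trans (h4.trans (le_of_eq ?_))
    ring
  have h3 : 0 ≤ L * M := by positivity
  exact le_of_sq_le_sq (h1.trans h2) h3

/-- the exponential part of the mode kernel -/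
def ek (X y : ℝ → ℝ) (m : ℤ) (κ : ℂ) (s t : ℝ) : ℂ :=
  Complex.exp (Complex.I * ((m : ℂ) * ((X s - X t : ℝ) : ℂ))) *
    Complex.exp (-(κ * ((|y s - y t| : ℝ) : ℂ)))

/-- its derivative -/
def ek' (X y : ℝ → ℝ) (m : ℤ) (κ : ℂ) (s t : ℝ) : ℂ :=
  Complex.exp (Complex.I * ((m : ℂ) * ((X s - X t : ℝ) : ℂ))) *
    (-((|y s - y t| : ℝ) : ℂ) * Complex.exp (-(κ * ((|y s - y t| : ℝ) : ℂ))))

section
variable {L β : ℝ} {X y : ℝ → ℝ}

theorem ek_cont (h : Crv L β X y) (m : ℤ) (κ : ℂ) : Continuous (Function.uncurry (ek X y m κ)) := by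
  have hX := h.X_cont
  have hy := h.y_cont
  unfold ek
  unfold Function.uncurry
  fun_prop

theorem ek'_cont (h : Crv L β X y) (m : ℤ) (κ : ℂ) :
    Continuous (Function.uncurry (ek' X y m κ)) := by
  have hX := h.X_cont
  have hy := h.y_cont
  unfold ek'
  unfold Function.uncurry
  fun_prop

theorem norm_phase (X : ℝ → ℝ) (m : ℤ) (s t : ℝ) :
    ‖Complex.exp (Complex.I * ((m : ℂ) * ((X s - X t : ℝ) : ℂ)))‖ = 1 := by
  have : Complex.I * ((m : ℂ) * ((X s - X t : ℝ) : ℂ)) =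
      (((m : ℝ) * (X s - X t) : ℝ) : ℂ) * Complex.I := by push_cast; ring
  rw [this, Complex.norm_exp_ofReal_mul_I]

/-- `y` is bounded -/
theorem y_bdd (h : Crv L β X y) : ∃ Y : ℝ, 0 ≤ Y ∧ ∀ s t, |y s - y t| ≤ Y := by
  have hp : Function.Periodic y L := h.y_per
  obtain ⟨C, hC⟩ := (hp.isBounded_of_continuous h.L_pos.ne' h.y_cont).exists_norm_le
  refine ⟨2 * C, ?_, fun s t => ?_⟩
  · have := (norm_nonneg _).trans (hC (y 0) ⟨0, rfl⟩)
    linarith
  · have h1 := hC (y s) ⟨s, rfl⟩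
    have h2 := hC (y t) ⟨t, rfl⟩
    have h3 := norm_sub_le (y s) (y t)
    rw [← Real.norm_eq_abs]
    linarith

theorem Mo_eq (hK : S_KOP) (h : Crv L β X y) (m : ℤ) (κ : ℂ) :
    Mo L X y m κ = (2 * κ)⁻¹ • kop L (ek X y m κ) := by
  rw [← (hK L h.L_pos).2.2 _ _ (ek_cont h m κ)]
  unfold Mo
  congr 1
  ext s t
  unfold Pool.Agent.H773.LK.mk ek
  rw [div_eq_mul_inv]
  ring

theorem kop_sub (hK : S_KOP) (hL : 0 < L) {k k' : ℝ → ℝ → ℂ}
    (hk : Continuous (Function.uncurry k)) (hk' : Continuous (Function.uncurry k')) :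
    kop L k - kop L k' = kop L (fun s t => k s t - k' s t) := by
  have hc : Continuous (Function.uncurry fun s t => (-1 : ℂ) * k' s t) := by
    exact continuous_const.mul hk'
  have h1 := (hK L hL).2.2 k' (-1) hk'
  have h2 := (hK L hL).2.1 k (fun s t => (-1 : ℂ) * k' s t) hk hc
  rw [h1] at h2
  have h3 : (fun s t => k s t - k' s t) = (fun s t => k s t + (-1 : ℂ) * k' s t) := by
    ext s t; ring
  rw [h3, h2]
  simp [sub_eq_add_neg]

/-- analyticity of the exponential part -/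
theorem hasDerivAt_ek (hK : S_KOP) (h : Crv L β X y) (m : ℤ) (κ₀ : ℂ) :
    HasDerivAt (fun κ => kop L (ek X y m κ)) (kop L (ek' X y m κ₀)) κ₀ := by
  obtain ⟨Y, hY, hYb⟩ := y_bdd h
  have hL := h.L_pos
  rw [hasDerivAt_iff_isLittleO]
  set C : ℝ := L * (Real.exp (‖κ₀‖ * Y) * Y ^ 2) with hC
  have hC0 : 0 ≤ C := by rw [hC]; positivity
  have hbig : (fun κ => kop L (ek X y m κ) - kop L (ek X y m κ₀) - (κ - κ₀) • kop L (ek' X y m κ₀))
      =O[𝓝 κ₀] fun κ => ‖κ - κ₀‖ ^ 2 := by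
    refine Asymptotics.IsBigO.of_bound C ?_
    have hnb : ∀ᶠ κ in 𝓝 κ₀, ‖κ - κ₀‖ < 1 / (Y + 1) := by
      have : Metric.ball κ₀ (1 / (Y + 1)) ∈ 𝓝 κ₀ := Metric.ball_mem_nhds _ (by positivity)
      filter_upwards [this] with κ hκ
      rwa [Metric.mem_ball, dist_eq_norm] at hκ
    filter_upwards [hnb] with κ hκ
    have e1 : kop L (ek X y m κ) - kop L (ek X y m κ₀) - (κ - κ₀) • kop L (ek' X y m κ₀) =
        kop L (fun s t => (ek X y m κ s t - ek X y m κ₀ s t) - (κ - κ₀) * ek' X y m κ₀ s t) := by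
      rw [← (hK L hL).2.2 _ _ (ek'_cont h m κ₀), kop_sub hK hL (ek_cont h m κ) (ek_cont h m κ₀),
        kop_sub hK hL]
      · exact (ek_cont h m κ).sub (ek_cont h m κ₀)
      · exact continuous_const.mul (ek'_cont h m κ₀)
    rw [e1]
    have hcont : Continuous (Function.uncurry fun s t =>
        (ek X y m κ s t - ek X y m κ₀ s t) - (κ - κ₀) * ek' X y m κ₀ s t) :=
      ((ek_cont h m κ).sub (ek_cont h m κ₀)).sub (continuous_const.mul (ek'_cont h m κ₀))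
    have hb : ∀ s t, ‖(ek X y m κ s t - ek X y m κ₀ s t) - (κ - κ₀) * ek' X y m κ₀ s t‖ ≤
        Real.exp (‖κ₀‖ * Y) * Y ^ 2 * ‖κ - κ₀‖ ^ 2 := by
      intro s t
      set u : ℝ := |y s - y t| with hu
      have hu0 : 0 ≤ u := abs_nonneg _
      have huY : u ≤ Y := hYb s t
      have e2 : (ek X y m κ s t - ek X y m κ₀ s t) - (κ - κ₀) * ek' X y m κ₀ s t =
          Complex.exp (Complex.I * ((m : ℂ) * ((X s - X t : ℝ) : ℂ))) *
            (Complex.exp (-(κ₀ * (u : ℂ))) *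
              (Complex.exp (-((κ - κ₀) * (u : ℂ))) - 1 - (-((κ - κ₀) * (u : ℂ))))) := by
        unfold ek ek'
        rw [← hu]
        have : Complex.exp (-(κ * (u : ℂ))) =
            Complex.exp (-(κ₀ * (u : ℂ))) * Complex.exp (-((κ - κ₀) * (u : ℂ))) := by
          rw [← Complex.exp_add]; congr 1; ring
        rw [this]
        ring
      rw [e2, norm_mul, norm_mul, norm_phase, one_mul]
      have h3 : ‖-((κ - κ₀) * (u : ℂ))‖ ≤ ‖κ - κ₀‖ * Y := by
        rw [norm_neg, norm_mul, Complex.norm_real, Real.norm_of_nonneg hu0]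
        gcongr
      have h4 : ‖κ - κ₀‖ * Y ≤ 1 := by
        have h5 : ‖κ - κ₀‖ * (Y + 1) ≤ 1 := by
          rw [lt_div_iff₀ (by positivity)] at hκ
          exact hκ.le
        nlinarith [norm_nonneg (κ - κ₀)]
      have h5 := Complex.norm_exp_sub_one_sub_id_le (h3.trans h4)
      have h6 : ‖Complex.exp (-(κ₀ * (u : ℂ)))‖ ≤ Real.exp (‖κ₀‖ * Y) := by
        rw [Complex.norm_exp, Real.exp_le_exp]
        refine (Complex.re_le_norm _).trans ?_
        rw [norm_neg, norm_mul, Complex.norm_real, Real.norm_of_nonneg hu0]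
        gcongr
      calc ‖Complex.exp (-(κ₀ * (u : ℂ)))‖ *
            ‖Complex.exp (-((κ - κ₀) * (u : ℂ))) - 1 - (-((κ - κ₀) * (u : ℂ)))‖
          ≤ Real.exp (‖κ₀‖ * Y) * ‖-((κ - κ₀) * (u : ℂ))‖ ^ 2 := by gcongr
        _ ≤ Real.exp (‖κ₀‖ * Y) * (‖κ - κ₀‖ * Y) ^ 2 := by gcongr
        _ = _ := by ring
    have := kop_norm_le hK hL hcont (by positivity) hb
    rw [norm_pow, norm_norm]
    refine this.trans (le_of_eq ?_)
    rw [hC]; ring
  refine hbig.trans_isLittleO ?_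
  rw [Asymptotics.isLittleO_iff]
  intro c hc
  have : Metric.ball κ₀ c ∈ 𝓝 κ₀ := Metric.ball_mem_nhds _ hc
  filter_upwards [this] with κ hκ
  rw [Metric.mem_ball, dist_eq_norm] at hκ
  rw [norm_pow, norm_norm, sq]
  gcongr

/-- the scalar function -/
def gu (u : ℝ) (κ : ℂ) : ℂ := Complex.exp (-(κ * (u : ℂ))) / (2 * κ)

theorem hasDerivAt_gu (u : ℝ) {κ : ℂ} (hκ : κ ≠ 0) :
    HasDerivAt (gu u) (-((1 + κ * u) * Complex.exp (-(κ * (u : ℂ)))) / (2 * κ ^ 2)) κ := by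
  have h1 : HasDerivAt (fun κ : ℂ => -(κ * (u : ℂ))) (-(1 * (u : ℂ))) κ :=
    ((hasDerivAt_id κ).mul_const (u : ℂ)).neg
  have h2 := h1.cexp
  have h3 : HasDerivAt (fun κ : ℂ => 2 * κ) (2 * 1) κ := (hasDerivAt_id κ).const_mul 2
  have h4 := h2.div h3 (by simpa using hκ)
  refine h4.congr_deriv ?_
  field_simp
  ring

/-- far modes -/
theorem gu_far {u b C₀ : ℝ} (hu : 0 ≤ u) (hb : 0 < b) (_hC₀ : 0 ≤ C₀) (h2 : 2 * C₀ < b) {κ κ' : ℂ}
    (h : ‖κ - (b : ℂ)‖ ≤ C₀) (h' : ‖κ' - (b : ℂ)‖ ≤ C₀) :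
    ‖gu u κ - gu u κ'‖ ≤ 8 / b ^ 2 * ‖κ - κ'‖ := by
  have hmem : ∀ z ∈ Metric.closedBall (b : ℂ) C₀, b / 2 ≤ z.re ∧ ‖z‖ ≤ 3 * z.re := by
    intro z hz
    rw [Metric.mem_closedBall, dist_eq_norm] at hz
    have h1 : |(z - (b : ℂ)).re| ≤ C₀ := (Complex.abs_re_le_norm _).trans hz
    rw [Complex.sub_re, Complex.ofReal_re] at h1
    have h3 : b / 2 ≤ z.re := by
      have := (abs_le.1 h1).1
      linarith
    refine ⟨h3, ?_⟩
    have h4 : ‖z‖ ≤ ‖z - (b : ℂ)‖ + ‖(b : ℂ)‖ := by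
      simpa using norm_add_le (z - (b : ℂ)) (b : ℂ)
    rw [Complex.norm_real, Real.norm_of_nonneg hb.le] at h4
    linarith
  have hder : ∀ z ∈ Metric.closedBall (b : ℂ) C₀,
      HasDerivWithinAt (gu u) (-((1 + z * u) * Complex.exp (-(z * (u : ℂ)))) / (2 * z ^ 2))
        (Metric.closedBall (b : ℂ) C₀) z := by
    intro z hz
    have h1 := (hmem z hz).1
    have hz0 : z ≠ 0 := by
      rintro rfl
      simp at h1
      linarith
    exact (hasDerivAt_gu u hz0).hasDerivWithinAt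
  have hbd : ∀ z ∈ Metric.closedBall (b : ℂ) C₀,
      ‖-((1 + z * u) * Complex.exp (-(z * (u : ℂ)))) / (2 * z ^ 2)‖ ≤ 8 / b ^ 2 := by
    intro z hz
    obtain ⟨h1, h3⟩ := hmem z hz
    have hre : 0 < z.re := by linarith
    have hzn : b / 2 ≤ ‖z‖ := h1.trans (Complex.re_le_norm z)
    rw [norm_div, norm_neg, norm_mul, norm_mul, norm_pow, Complex.norm_exp]
    have e1 : (-(z * (u : ℂ))).re = -(z.re * u) := by simp
    rw [e1]
    have e2 : ‖(1 : ℂ) + z * u‖ ≤ 1 + 3 * (z.re * u) := by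
      refine (norm_add_le _ _).trans ?_
      rw [norm_one, norm_mul, Complex.norm_real, Real.norm_of_nonneg hu]
      nlinarith
    have e3 : (1 + 3 * (z.re * u)) * Real.exp (-(z.re * u)) ≤ 4 := by
      set x := z.re * u with hx
      have hx0 : 0 ≤ x := by positivity
      have h4 : x + 1 ≤ Real.exp x := Real.add_one_le_exp x
      rw [Real.exp_neg]
      have h5 := Real.exp_pos x
      rw [mul_inv_le_iff₀ h5]
      nlinarith
    have e4 : ‖(1 : ℂ) + z * u‖ * Real.exp (-(z.re * u)) ≤ 4 :=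
      (mul_le_mul_of_nonneg_right e2 (Real.exp_pos _).le).trans e3
    have e5 : ‖(2 : ℂ)‖ = 2 := by simp
    have hzp : 0 < ‖z‖ := by linarith
    rw [e5, div_le_div_iff₀ (by positivity) (by positivity)]
    have e6 : b ^ 2 ≤ 4 * ‖z‖ ^ 2 := by nlinarith
    nlinarith [sq_nonneg b]
  have := (convex_closedBall (b : ℂ) C₀).norm_image_sub_le_of_norm_hasDerivWithin_le hder hbd
    (by rw [Metric.mem_closedBall, dist_eq_norm]; exact h' : κ' ∈ Metric.closedBall (b : ℂ) C₀)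
    (by rw [Metric.mem_closedBall, dist_eq_norm]; exact h : κ ∈ Metric.closedBall (b : ℂ) C₀)
  exact this

/-- near modes -/
theorem gu_near {u Y c₀ A : ℝ} (hu : 0 ≤ u) (huY : u ≤ Y) (hc₀ : 0 < c₀) {κ κ' : ℂ}
    (hκ : c₀ ≤ ‖κ‖) (hκ' : c₀ ≤ ‖κ'‖) (hA : ‖κ‖ ≤ A) (hA' : ‖κ'‖ ≤ A) :
    ‖gu u κ - gu u κ'‖ ≤ Real.exp (A * Y) * (Y / c₀ + 1 / c₀ ^ 2) * ‖κ - κ'‖ := by
  have hY : 0 ≤ Y := hu.trans huY
  have hA0 : 0 ≤ A := (norm_nonneg _).trans hA
  have hexp : ∀ z : ℂ, ‖z‖ ≤ A → ‖Complex.exp (-(z * (u : ℂ)))‖ ≤ Real.exp (A * Y) := by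
    intro z hz
    rw [Complex.norm_exp, Real.exp_le_exp]
    refine (Complex.re_le_norm _).trans ?_
    rw [norm_neg, norm_mul, Complex.norm_real, Real.norm_of_nonneg hu]
    gcongr
  have hdiff : ‖Complex.exp (-(κ * (u : ℂ))) - Complex.exp (-(κ' * (u : ℂ)))‖ ≤
      Real.exp (A * Y) * Y * ‖κ - κ'‖ := by
    have hder : ∀ z ∈ Metric.closedBall (0 : ℂ) A,
        HasDerivWithinAt (fun κ : ℂ => Complex.exp (-(κ * (u : ℂ))))
          (Complex.exp (-(z * (u : ℂ))) * -(1 * (u : ℂ))) (Metric.closedBall (0 : ℂ) A) z := by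
      intro z _
      exact (((hasDerivAt_id z).mul_const (u : ℂ)).neg.cexp).hasDerivWithinAt
    have hbd : ∀ z ∈ Metric.closedBall (0 : ℂ) A,
        ‖Complex.exp (-(z * (u : ℂ))) * -(1 * (u : ℂ))‖ ≤ Real.exp (A * Y) * Y := by
      intro z hz
      rw [mem_closedBall_zero_iff] at hz
      rw [norm_mul, norm_neg, one_mul, Complex.norm_real, Real.norm_of_nonneg hu]
      have := hexp z hz
      gcongr
    exact (convex_closedBall (0 : ℂ) A).norm_image_sub_le_of_norm_hasDerivWithin_le hder hbd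
      (by rwa [mem_closedBall_zero_iff] : κ' ∈ Metric.closedBall (0 : ℂ) A)
      (by rwa [mem_closedBall_zero_iff] : κ ∈ Metric.closedBall (0 : ℂ) A)
  have hκ0 : κ ≠ 0 := by rintro rfl; simp at hκ; linarith
  have hκ'0 : κ' ≠ 0 := by rintro rfl; simp at hκ'; linarith
  have e1 : gu u κ - gu u κ' = (Complex.exp (-(κ * (u : ℂ))) - Complex.exp (-(κ' * (u : ℂ)))) / (2 * κ)
      - Complex.exp (-(κ' * (u : ℂ))) * (κ - κ') / (2 * κ * κ') := by
    unfold gu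
    field_simp
    ring
  rw [e1]
  refine (norm_sub_le _ _).trans ?_
  have f1 : ‖(Complex.exp (-(κ * (u : ℂ))) - Complex.exp (-(κ' * (u : ℂ)))) / (2 * κ)‖ ≤
      Real.exp (A * Y) * (Y / c₀) * ‖κ - κ'‖ := by
    rw [norm_div, norm_mul]
    have : ‖(2 : ℂ)‖ = 2 := by simp
    rw [this, div_le_iff₀ (by positivity)]
    refine hdiff.trans ?_
    have h2 : 1 ≤ 2 * ‖κ‖ / c₀ := by
      rw [le_div_iff₀ hc₀]; linarith
    have h3 : 0 ≤ Real.exp (A * Y) * Y * ‖κ - κ'‖ := by positivity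
    calc Real.exp (A * Y) * Y * ‖κ - κ'‖ = Real.exp (A * Y) * Y * ‖κ - κ'‖ * 1 := by ring
      _ ≤ Real.exp (A * Y) * Y * ‖κ - κ'‖ * (2 * ‖κ‖ / c₀) := by gcongr
      _ = _ := by ring
  have f2 : ‖Complex.exp (-(κ' * (u : ℂ))) * (κ - κ') / (2 * κ * κ')‖ ≤
      Real.exp (A * Y) * (1 / c₀ ^ 2) * ‖κ - κ'‖ := by
    rw [norm_div, norm_mul, norm_mul, norm_mul]
    have : ‖(2 : ℂ)‖ = 2 := by simp
    rw [this, div_le_iff₀ (by positivity)]
    have h1 := hexp κ' hA'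
    have h2 : 1 ≤ 1 / c₀ ^ 2 * (2 * ‖κ‖ * ‖κ'‖) := by
      rw [one_div, ← div_eq_inv_mul, le_div_iff₀ (by positivity)]
      nlinarith [mul_le_mul hκ hκ' hc₀.le (norm_nonneg κ)]
    calc ‖Complex.exp (-(κ' * (u : ℂ)))‖ * ‖κ - κ'‖ ≤ Real.exp (A * Y) * ‖κ - κ'‖ * 1 := by
          rw [mul_one]; gcongr
      _ ≤ Real.exp (A * Y) * ‖κ - κ'‖ * (1 / c₀ ^ 2 * (2 * ‖κ‖ * ‖κ'‖)) := by gcongr
      _ = _ := by ring
  linarith

end

theorem t_MODE (hKOP : S_KOP) : S_MODE := by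
  intro L β X y h
  have hL := h.L_pos
  have hβ := h.β_pos
  obtain ⟨Y, hY, hYb⟩ := y_bdd h
  refine ⟨fun m κ hκ => ?_, fun c₀ C₀ hc₀ => ?_⟩
  · have h1 : (fun κ => Mo L X y m κ) = fun κ => (2 * κ)⁻¹ • kop L (ek X y m κ) := by
      ext1 κ; exact Mo_eq hKOP h m κ
    rw [h1]
    have hκ' : κ ≠ 0 := hκ
    have h2 : DifferentiableAt ℂ (fun κ : ℂ => (2 * κ)⁻¹) κ := by
      apply DifferentiableAt.inv (by fun_prop)
      simpa using hκ'
    exact (h2.smul (hasDerivAt_ek hKOP h m κ).differentiableAt).differentiableWithinAt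
  · by_cases hC₀ : 0 ≤ C₀
    swap
    · exact ⟨1, one_pos, fun m κ κ' _ _ h1 _ => absurd ((norm_nonneg _).trans h1) hC₀⟩
    -- kernel bound
    have hker : ∀ (m : ℤ) (κ κ' : ℂ) (M : ℝ), 0 ≤ M →
        (∀ u : ℝ, 0 ≤ u → u ≤ Y → ‖gu u κ - gu u κ'‖ ≤ M) →
        ‖Mo L X y m κ - Mo L X y m κ'‖ ≤ L * M := by
      intro m κ κ' M hM hb
      have hc : ∀ κ : ℂ, Continuous (Function.uncurry (Pool.Agent.H773.LK.mk X y m κ)) := by
        intro κ
        have hX := h.X_cont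
        have hy := h.y_cont
        unfold Pool.Agent.H773.LK.mk
        unfold Function.uncurry
        fun_prop
      unfold Mo
      rw [kop_sub hKOP hL (hc κ) (hc κ')]
      have hcc : Continuous (Function.uncurry fun s t =>
          Pool.Agent.H773.LK.mk X y m κ s t - Pool.Agent.H773.LK.mk X y m κ' s t) :=
        (hc κ).sub (hc κ')
      refine kop_norm_le hKOP hL hcc hM fun s t => ?_
      have e1 : Pool.Agent.H773.LK.mk X y m κ s t - Pool.Agent.H773.LK.mk X y m κ' s t =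
          Complex.exp (Complex.I * ((m : ℂ) * ((X s - X t : ℝ) : ℂ))) *
            (gu |y s - y t| κ - gu |y s - y t| κ') := by
        unfold Pool.Agent.H773.LK.mk gu
        ring
      rw [e1, norm_mul, norm_phase, one_mul]
      exact hb _ (abs_nonneg _) (hYb s t)
    set A : ℝ := 3 * C₀ with hA
    set C1 : ℝ := Real.exp (A * Y) * (Y / c₀ + 1 / c₀ ^ 2) with hC1
    have hC10 : 0 ≤ C1 := by rw [hC1]; positivity
    set C2 : ℝ := C1 * (1 + (2 * C₀ / β) ^ 2) + 16 / β ^ 2 with hC2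
    have hC20 : 0 < C2 := by rw [hC2]; positivity
    refine ⟨L * C2, by positivity, fun m κ κ' hκ hκ' h1 h1' => ?_⟩
    have hm : 0 < 1 + (m : ℝ) ^ 2 := by positivity
    have e0 : L * C2 * ‖κ - κ'‖ / (1 + (m : ℝ) ^ 2) = L * (C2 / (1 + (m : ℝ) ^ 2) * ‖κ - κ'‖) := by
      ring
    rw [e0]
    refine hker m κ κ' _ (by positivity) fun u hu huY => ?_
    by_cases hcase : β * |(m : ℝ)| ≤ 2 * C₀
    · have hb0 : 0 ≤ β * |(m : ℝ)| := by positivity
      have hn : ∀ z : ℂ, ‖z - ((β * |(m : ℝ)| : ℝ) : ℂ)‖ ≤ C₀ → ‖z‖ ≤ A := by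
        intro z hz
        have h4 : ‖z‖ ≤ ‖z - ((β * |(m : ℝ)| : ℝ) : ℂ)‖ + ‖((β * |(m : ℝ)| : ℝ) : ℂ)‖ := by
          simpa using norm_add_le (z - ((β * |(m : ℝ)| : ℝ) : ℂ)) ((β * |(m : ℝ)| : ℝ) : ℂ)
        rw [Complex.norm_real, Real.norm_of_nonneg hb0] at h4
        linarith
      refine (gu_near hu huY hc₀ hκ hκ' (hn κ h1) (hn κ' h1')).trans ?_
      have h2 : (m : ℝ) ^ 2 ≤ (2 * C₀ / β) ^ 2 := by
        rw [← sq_abs]
        apply pow_le_pow_left₀ (abs_nonneg _)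
        rw [le_div_iff₀ hβ]; linarith
      have h3 : C1 ≤ C2 / (1 + (m : ℝ) ^ 2) := by
        rw [le_div_iff₀ hm]
        calc C1 * (1 + (m : ℝ) ^ 2) ≤ C1 * (1 + (2 * C₀ / β) ^ 2) := by gcongr
          _ ≤ C2 := by
            rw [hC2]
            have : 0 ≤ 16 / β ^ 2 := by positivity
            linarith
      gcongr
    · push Not at hcase
      have hb : 0 < β * |(m : ℝ)| := lt_of_le_of_lt (by positivity) hcase
      refine (gu_far hu hb hC₀ hcase h1 h1').trans ?_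
      have hm0 : m ≠ 0 := by
        rintro rfl
        simp at hb
      have hm1 : 1 ≤ |(m : ℝ)| := by
        have := Int.one_le_abs hm0
        exact_mod_cast this
      have h2 : 8 / (β * |(m : ℝ)|) ^ 2 ≤ C2 / (1 + (m : ℝ) ^ 2) := by
        rw [mul_pow, sq_abs, le_div_iff₀ hm]
        have hm2 : 1 ≤ (m : ℝ) ^ 2 := by rw [← sq_abs]; exact one_le_pow₀ hm1
        have h3 : 8 / (β ^ 2 * (m : ℝ) ^ 2) * (1 + (m : ℝ) ^ 2) ≤ 16 / β ^ 2 := by
          rw [div_mul_eq_mul_div, div_le_div_iff₀ (by positivity) (by positivity)]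
          nlinarith [sq_nonneg β]
        have h4 : 16 / β ^ 2 ≤ C2 := by
          rw [hC2]
          have : 0 ≤ C1 * (1 + (2 * C₀ / β) ^ 2) := by positivity
          linarith
        linarith
      gcongr

end Pool.Agent.H292.LK
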